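import Pool.Agent.H51.MF.Base

/-! # Module CM: Claim M -/

set_option linter.style.haveILetI false
set_option linter.unusedSectionVars false
set_option autoImplicit false

namespace Pool.Agent.H51.MF

open Module Pool.Agent.H51.T2

universe u v

theorem s_CM (K : Type v) [Field K] (A : Type u) [Ring A] [Algebra K A] (hLIN2 : S_LIN2)
    (hLIN4 : S_LIN4) (hCS : S_CS K A) (hTI : S_TI K A) (hLI : S_LI K A) (hSM : S_SM K A)
    (hLT : S_LT K A) (hREAL : S_REAL K A) (hFINV : S_FINV K A) : S_CM K A := by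
  classical
  intro hK hA hHR c f₀ Y Z L h₀ hY hZ hL θ hθ hnz hmax hrk
  obtain ⟨g, hg⟩ := hREAL hK hHR c f₀ θ h₀
  have h₁ : Rigid (f₀.add g).f := rigid_addTC h₀ hg.rig hg.comp
  -- `θ` vanishes on the smaller wide subcategory
  have hθ0 : ∀ X : FM K A, InW (f₀.add g) X → θ ⬝ᵥ c.v X = 0 := by
    intro X hX
    obtain ⟨h1, h2, h3⟩ := inW_addTC.1 hX
    rw [← hg.cl X h1]
    exact le_antisymm (hh_cl h3) (tt_cl h2)
  -- the functional
  obtain ⟨η, hη1, hη2, hη3⟩ : ∃ η : Fin c.n → ℤ,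
      (∀ w ∈ Tight (VV c f₀ Y Z) θ, η ⬝ᵥ w = 0) ∧
      (∀ X : FM K A, InW (f₀.add g) X → 0 ≤ η ⬝ᵥ c.v X) ∧ Ind (WV c f₀) θ η := by
    by_cases hcase : ∀ N : FM K A, SimW (f₀.add g) N → ∀ ζ : Fin c.n → ℤ,
        (∀ w ∈ Tight (VV c f₀ Y Z) θ, ζ ⬝ᵥ w = 0) → ζ ⬝ᵥ c.v N = 0
    · obtain ⟨η, h1, h2⟩ := hLIN2 c.n (WV c f₀) (Tight (VV c f₀ Y Z) θ) θ hnz hrk
      refine ⟨η, h1, fun X hX => ?_, h2⟩
      refine hCS c (f₀.add g) η X hX ?_
      intro N T S hN _ _ _ _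
      exact (hcase N hN η h1).ge
    · push Not at hcase
      obtain ⟨N₁, hN₁, ζ, hζ, hζ1⟩ := hcase
      obtain ⟨η, h1, h2⟩ := hLI hK hA hHR c (f₀.add g) N₁ h₁ hN₁
      have h3 : ∀ N : FM K A, SimW (f₀.add g) N → 0 ≤ η ⬝ᵥ c.v N := by
        intro N hN
        by_cases hiso : Nonempty (N ≃ₗ[A] N₁)
        · obtain ⟨e⟩ := hiso
          rw [v_iso c e]
          exact h1.le
        · exact (h2 N hN hiso).ge
      refine ⟨η, ?_, fun X hX => ?_, ?_⟩
      · refine hTI c f₀ g Y Z θ η h₀ hY hZ hg ⟨hθ.1, fun w hw => hw.elim⟩ ?_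
        intro N hN hN2
        by_cases hiso : Nonempty (N ≃ₗ[A] N₁)
        · obtain ⟨e⟩ := hiso
          exact absurd ((v_iso c e) ▸ hN2 ζ hζ) hζ1
        · exact h2 N hN hiso
      · refine hCS c (f₀.add g) η X hX ?_
        intro N T S hN _ _ _ _
        exact h3 N hN
      · intro a b hab
        have hN₁W : InW f₀ N₁ := (inW_addTC.1 hN₁.1).1
        have h4 := hab (c.v N₁) ⟨N₁, hN₁W, rfl⟩
        rw [add_dotProduct, smul_dotProduct, smul_dotProduct, hθ0 N₁ hN₁.1, smul_zero, zero_add,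
          smul_eq_mul] at h4
        have hb : b = 0 := by
          rcases mul_eq_zero.1 h4 with h5 | h5
          · exact h5
          · exact absurd h5 h1.ne'
        refine ⟨?_, hb⟩
        obtain ⟨w, hw, hw2⟩ := hnz
        have h5 := hab w hw
        rw [hb, zero_smul, add_zero, smul_dotProduct, smul_eq_mul] at h5
        rcases mul_eq_zero.1 h5 with h6 | h6
        · exact h6
        · exact absurd h6 hw2
  -- deformation
  have hfin : (VV c f₀ Y Z).Finite := by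
    refine Set.Finite.union ?_ ?_
    · refine ((hFINV c Y).1.image (fun w => -w)).subset ?_
      rintro w ⟨S, hS, rfl⟩
      exact ⟨c.v (Y.sub S), ⟨S, rfl⟩, rfl⟩
    · refine (hFINV c Z).2.subset ?_
      rintro w ⟨S, hS, rfl⟩
      exact ⟨S, rfl⟩
  obtain ⟨M₁, hM₁⟩ := hLIN4 c.n (VV c f₀ Y Z) θ η hfin hθ.1
    (fun w hw hw0 => (hη1 w ⟨hw, hw0⟩).ge)
  obtain ⟨M₂, hM₂⟩ := hSM c f₀ g θ η h₀ hg
  let m : ℕ := max M₁ M₂
  have hF' : InF (VV c f₀ Y Z) L ((m : ℤ) • θ + η) := by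
    refine ⟨hM₁ m (le_max_left _ _), fun w hw => ?_⟩
    have h1 := hθ.2 w hw
    have h2 := hη1 w ⟨hL hw, h1⟩
    rw [add_dotProduct, smul_dotProduct, h1, h2, smul_zero, add_zero]
  have hInd : Ind (WV c f₀) θ ((m : ℤ) • θ + η) := by
    intro a b hab
    have h1 := hη3 (a + b * m) b (fun w hw => by
      have := hab w hw
      rw [add_dotProduct, smul_dotProduct, smul_dotProduct, add_dotProduct, smul_dotProduct] at this
      rw [add_dotProduct, smul_dotProduct, smul_dotProduct]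
      simp only [smul_eq_mul] at this ⊢
      linear_combination this)
    obtain ⟨h2, h3⟩ := h1
    rw [h3, zero_mul, add_zero] at h2
    exact ⟨h2, h3⟩
  have hLe : Le c f₀ Y θ ((m : ℤ) • θ + η) := by
    intro X hX
    exact ⟨hM₂ m (le_max_right _ _) X hX.2.1 hX.1 (fun T hT => hη2 _ hT), hX.2⟩
  exact hLT hK hHR c f₀ Y Z L h₀ hY hZ hL θ ((m : ℤ) • θ + η) hθ hF' hInd hmax hLe

end Pool.Agent.H51.MF
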