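import Pool.Agent.H51.MF.Base

/-! # Module FIT: Fitting decomposition of an endomorphism of a map -/

set_option linter.style.haveILetI false
set_option linter.unusedSectionVars false
set_option autoImplicit false

namespace Pool.Agent.H51.MF

open Module Pool.Agent.H51.T2

universe u v

section aux

variable {K : Type v} [Field K] {A : Type u} [Ring A] [Algebra K A]

theorem FIT_proj (X : FM K A) [Module.Projective A X] (p q : Submodule A X) (h : IsCompl p q) :
    Module.Projective A p :=
  Module.Projective.of_split p.subtype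
    (LinearMap.fst A p q ∘ₗ (Submodule.prodEquivOfIsCompl p q h).symm.toLinearMap) (by
      ext x
      simp only [LinearMap.comp_apply, LinearEquiv.coe_coe, LinearMap.fst_apply,
        LinearMap.id_apply, Submodule.subtype_apply,
        Submodule.prodEquivOfIsCompl_symm_apply_left])

theorem FIT_compl (X : FM K A) (s : X →ₗ[A] X) :
    ∀ᶠ n in Filter.atTop, IsCompl (LinearMap.ker (s ^ n)) (LinearMap.range (s ^ n)) := by
  haveI : IsNoetherian A X := isNoetherian_of_tower K inferInstance
  haveI : IsArtinian A X := isArtinian_of_tower K inferInstance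
  exact LinearMap.eventually_isCompl_ker_pow_range_pow s

theorem FIT_bij (X : FM K A) (s : X →ₗ[A] X) (m : ℕ) (hm : 1 ≤ m)
    (h : finrank K (LinearMap.ker (s ^ m)) = 0) : Function.Bijective s := by
  haveI : FiniteDimensional K (LinearMap.ker (s ^ m)) :=
    Module.Finite.of_injective ((LinearMap.ker (s ^ m)).subtype.restrictScalars K)
      (Submodule.injective_subtype _)
  have h1 : Subsingleton (LinearMap.ker (s ^ m)) := finrank_zero_iff.1 h
  have h2 : Function.Injective s := by
    rw [← LinearMap.ker_eq_bot, eq_bot_iff]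
    intro x hx
    have hx0 : s x = 0 := hx
    have hx1 : x ∈ LinearMap.ker (s ^ m) := by
      obtain ⟨k, rfl⟩ := Nat.exists_eq_succ_of_ne_zero (by omega : m ≠ 0)
      rw [LinearMap.mem_ker, Nat.succ_eq_add_one, pow_succ, Module.End.mul_apply, hx0, map_zero]
    have h3 : (⟨x, hx1⟩ : LinearMap.ker (s ^ m)) = 0 := Subsingleton.elim _ _
    exact congrArg Subtype.val h3
  refine ⟨h2, ?_⟩
  exact (LinearMap.injective_iff_surjective (f := s.restrictScalars K)).1 h2

theorem FIT_zero (X : FM K A) (s : X →ₗ[A] X) (m : ℕ)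
    (h : finrank K (LinearMap.range (s ^ m)) = 0) : s ^ m = 0 := by
  haveI : FiniteDimensional K (LinearMap.range (s ^ m)) :=
    Module.Finite.of_injective ((LinearMap.range (s ^ m)).subtype.restrictScalars K)
      (Submodule.injective_subtype _)
  have h1 : Subsingleton (LinearMap.range (s ^ m)) := finrank_zero_iff.1 h
  ext x
  have h3 : (⟨(s ^ m) x, ⟨x, rfl⟩⟩ : LinearMap.range (s ^ m)) = 0 := Subsingleton.elim _ _
  exact congrArg Subtype.val h3

theorem FIT_rank (X : FM K A) (p q : Submodule A X) (h : IsCompl p q) :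
    finrank K p + finrank K q = finrank K X := by
  haveI : FiniteDimensional K p :=
    Module.Finite.of_injective (p.subtype.restrictScalars K) (Submodule.injective_subtype _)
  haveI : FiniteDimensional K q :=
    Module.Finite.of_injective (q.subtype.restrictScalars K) (Submodule.injective_subtype _)
  rw [← Module.finrank_prod]
  exact ((Submodule.prodEquivOfIsCompl p q h).restrictScalars K).finrank_eq

theorem FIT_comm {g : TC K A} {s : g.P →ₗ[A] g.P} {t : g.Q →ₗ[A] g.Q}
    (h : g.f ∘ₗ s = t ∘ₗ g.f) (m : ℕ) (x : g.P) : g.f ((s ^ m) x) = (t ^ m) (g.f x) := by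
  induction m generalizing x with
  | zero => rfl
  | succ k ih =>
    rw [pow_succ, pow_succ, Module.End.mul_apply, Module.End.mul_apply, ih]
    exact congrArg _ (LinearMap.congr_fun h x)

end aux

theorem s_FIT (K : Type v) [Field K] (A : Type u) [Ring A] [Algebra K A] : S_FIT K A := by
  intro g s t hst
  obtain ⟨m, ⟨hs, ht⟩, hm⟩ :=
    (((FIT_compl g.P s).and (FIT_compl g.Q t)).and (Filter.eventually_ge_atTop 1)).exists
  have hf0 : ∀ x ∈ LinearMap.ker (s ^ m), g.f x ∈ LinearMap.ker (t ^ m) := by
    intro x hx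
    rw [LinearMap.mem_ker, ← FIT_comm hst m x, LinearMap.mem_ker.1 hx, map_zero]
  have hf1 : ∀ x ∈ LinearMap.range (s ^ m), g.f x ∈ LinearMap.range (t ^ m) := by
    rintro x ⟨y, rfl⟩
    exact ⟨g.f y, (FIT_comm hst m y).symm⟩
  let g₀ : TC K A :=
    { P := g.P.sub (LinearMap.ker (s ^ m))
      Q := g.Q.sub (LinearMap.ker (t ^ m))
      hP := FIT_proj g.P _ _ hs
      hQ := FIT_proj g.Q _ _ ht
      f := g.f.restrict hf0 }
  let g₁ : TC K A :=
    { P := g.P.sub (LinearMap.range (s ^ m))
      Q := g.Q.sub (LinearMap.range (t ^ m))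
      hP := FIT_proj g.P _ _ hs.symm
      hQ := FIT_proj g.Q _ _ ht.symm
      f := g.f.restrict hf1 }
  refine ⟨m, g₀, g₁, (Submodule.prodEquivOfIsCompl _ _ hs).symm,
    (Submodule.prodEquivOfIsCompl _ _ ht).symm, ?_, ?_, ?_, ?_, ?_⟩
  · intro x
    obtain ⟨y, rfl⟩ := (Submodule.prodEquivOfIsCompl _ _ hs).surjective x
    rw [LinearEquiv.symm_apply_apply, LinearEquiv.symm_apply_eq]
    rw [Submodule.coe_prodEquivOfIsCompl', Submodule.coe_prodEquivOfIsCompl', map_add]
    rfl
  · intro x
    rw [Submodule.prodEquivOfIsCompl_symm_apply_fst_eq_zero]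
    exact ⟨x, rfl⟩
  · have h1 := FIT_rank g.P _ _ hs
    have h2 := FIT_rank g.Q _ _ ht
    show (finrank K (LinearMap.ker (s ^ m)) + finrank K (LinearMap.ker (t ^ m))) +
      (finrank K (LinearMap.range (s ^ m)) + finrank K (LinearMap.range (t ^ m))) =
      finrank K g.P + finrank K g.Q
    omega
  · intro h
    have h' : finrank K (LinearMap.range (s ^ m)) + finrank K (LinearMap.range (t ^ m)) = 0 := h
    exact ⟨FIT_zero g.P s m (by omega), FIT_zero g.Q t m (by omega)⟩
  · intro h
    have h' : finrank K (LinearMap.ker (s ^ m)) + finrank K (LinearMap.ker (t ^ m)) = 0 := h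
    exact ⟨FIT_bij g.P s m hm (by omega), FIT_bij g.Q t m hm (by omega)⟩

end Pool.Agent.H51.MF
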