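import Pool.Agent.H51.MF.Base

/-! # Module MAX: existence of maximal functionals -/

set_option linter.style.haveILetI false
set_option linter.unusedSectionVars false
set_option autoImplicit false

namespace Pool.Agent.H51.MF

open Module Pool.Agent.H51.T2

universe u v

section aux

variable {K : Type v} [Field K] {A : Type u} [Ring A] [Algebra K A]

/-- quotient of a product by `S × ⊤` -/
noncomputable def MAX_quotL (Z C : FM K A) (S : Submodule A Z) :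
    (Z.prod C).quot (S.prod ⊤) ≃ₗ[A] Z.quot S :=
  (Submodule.quotEquivOfEq _ _ (by
    ext x
    simp [Submodule.mem_prod])) ≪≫ₗ
  LinearMap.quotKerEquivOfSurjective (S.mkQ ∘ₗ LinearMap.fst A Z C)
    ((Submodule.mkQ_surjective S).comp Prod.fst_surjective)

/-- quotient of a product by `⊤ × S` -/
noncomputable def MAX_quotR (Z C : FM K A) (S : Submodule A C) :
    (Z.prod C).quot ((⊤ : Submodule A Z).prod S) ≃ₗ[A] C.quot S :=
  (Submodule.quotEquivOfEq _ _ (by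
    ext x
    simp [Submodule.mem_prod])) ≪≫ₗ
  LinearMap.quotKerEquivOfSurjective (S.mkQ ∘ₗ LinearMap.snd A Z C)
    ((Submodule.mkQ_surjective S).comp Prod.snd_surjective)

theorem MAX_tbN_prodL {c : Coo K A} {f₀ : TC K A} {η : Fin c.n → ℤ} {Z C : FM K A}
    (h : TbN c f₀ η (Z.prod C)) : TbN c f₀ η Z := by
  intro S hS
  have h1 := h (S.prod ⊤) (inW_iso (MAX_quotL Z C S).symm hS)
  rwa [v_iso c (MAX_quotL Z C S)] at h1

theorem MAX_tbN_prodR {c : Coo K A} {f₀ : TC K A} {η : Fin c.n → ℤ} {Z C : FM K A}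
    (h : TbN c f₀ η (Z.prod C)) : TbN c f₀ η C := by
  intro S hS
  have h1 := h ((⊤ : Submodule A Z).prod S) (inW_iso (MAX_quotR Z C S).symm hS)
  rwa [v_iso c (MAX_quotR Z C S)] at h1

theorem MAX_tbN_prod (hT : S_TBN K A) {c : Coo K A} {f₀ : TC K A} {η : Fin c.n → ℤ}
    (h₀ : Rigid f₀.f) {Z C : FM K A} (hZ : InW f₀ Z) (hC : InW f₀ C)
    (h1 : TbN c f₀ η Z) (h2 : TbN c f₀ η C) : TbN c f₀ η (Z.prod C) := by
  let S : Submodule A (Z.prod C) := LinearMap.ker (LinearMap.fst A Z C)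
  let e1 : (Z.prod C).quot S ≃ₗ[A] Z :=
    LinearMap.quotKerEquivOfSurjective (LinearMap.fst A Z C) Prod.fst_surjective
  let e2 : (Z.prod C).sub S ≃ₗ[A] C :=
    LinearEquiv.ofBijective (LinearMap.snd A Z C ∘ₗ S.subtype) (by
      constructor
      · rintro ⟨⟨a, b⟩, h⟩ ⟨⟨a', b'⟩, h'⟩ hab
        have ha : a = 0 := h
        have ha' : a' = 0 := h'
        have hb : b = b' := hab
        subst ha ha' hb
        rfl
      · intro b
        exact ⟨⟨(0, b), rfl⟩, rfl⟩)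
  exact (hT c f₀ η h₀).2.1 (Z.prod C) S (inW_iso e2.symm hC) (inW_iso e1.symm hZ)
    (tbN_iso e2.symm h2) (tbN_iso e1.symm h1)

end aux

theorem s_MAX (K : Type v) [Field K] (A : Type u) [Ring A] [Algebra K A] (hCHAIN : S_CHAIN)
    (hCM : S_CM K A) (hPUSH : S_PUSH K A) (hTRC : S_TRC K A) (hREAL : S_REAL K A)
    (hNUM : S_NUM K A) (hFINV : S_FINV K A) (hTBN : S_TBN K A) : S_MAX K A := by
  intro hK hA hHR c f₀ Y h₀ hY θ hθ hnz
  let D : Set (Fin c.n → ℤ) := WV c f₀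
  let AA : Set (Set (Fin c.n → ℤ)) := {V | ∃ Z : FM K A, InW f₀ Z ∧ V = VV c f₀ Y Z}
  -- functionals nonnegative on `VV`
  have hFb : ∀ (Z : FM K A) (η : Fin c.n → ℤ), (∀ w ∈ VV c f₀ Y Z, 0 ≤ η ⬝ᵥ w) →
      FbN c f₀ η Y := by
    intro Z η h S hS
    have h1 := h (- c.v (Y.sub S)) (Or.inl ⟨S, hS, rfl⟩)
    rw [dotProduct_neg] at h1
    linarith
  have hTb : ∀ (Z : FM K A) (η : Fin c.n → ℤ), (∀ w ∈ VV c f₀ Y Z, 0 ≤ η ⬝ᵥ w) →
      TbN c f₀ η Z := by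
    intro Z η h S hS
    exact h (c.v (Z.quot S)) (Or.inr ⟨S, hS, rfl⟩)
  have hVV : ∀ (Z : FM K A) (η : Fin c.n → ℤ), FbN c f₀ η Y → TbN c f₀ η Z →
      ∀ w ∈ VV c f₀ Y Z, 0 ≤ η ⬝ᵥ w := by
    rintro Z η h1 h2 w (⟨S, hS, rfl⟩ | ⟨S, hS, rfl⟩)
    · rw [dotProduct_neg]
      have := h1 S hS
      linarith
    · exact h2 S hS
  have key := hCHAIN c.n D (Le c f₀ Y) AA (fun η X h => h)
    (fun η η' η'' h h' X hX => h' X (h X hX)) ?_ ?_ ?_ ?_ (VV c f₀ Y FM.zero)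
    ⟨FM.zero, inW_of_subsingleton, rfl⟩ ∅ (Set.empty_subset _) θ
    ⟨hθ, fun w hw => hw.elim⟩ hnz
  · obtain ⟨θ', h1, h2, h3, h4⟩ := key
    exact ⟨θ', h1.1, h2, h3, fun η hη hn hle => h4 η ⟨hη, fun w hw => hw.elim⟩ hn hle⟩
  · -- scaling
    intro η η' a b ha hb h X hX
    refine ⟨fun S hS => ?_, hX.2⟩
    have h1 := hX.1 S hS
    have h2 := h (c.v (X.quot S)) ⟨X.quot S, hS, rfl⟩
    have h3 : (0 : ℤ) ≤ b * (η' ⬝ᵥ c.v (X.quot S)) := by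
      rw [← h2]
      positivity
    have hb' : (0 : ℤ) < b := by exact_mod_cast hb
    exact nonneg_of_mul_nonneg_right h3 hb'
  · -- allowed sets
    rintro V ⟨Z, hZ, rfl⟩
    constructor
    · refine Set.Finite.union ?_ ?_
      · refine ((hFINV c Y).1.image (fun w => -w)).subset ?_
        rintro w ⟨S, hS, rfl⟩
        exact ⟨c.v (Y.sub S), ⟨S, rfl⟩, rfl⟩
      · refine (hFINV c Z).2.subset ?_
        rintro w ⟨S, hS, rfl⟩
        exact ⟨S, rfl⟩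
    · rintro w (⟨S, hS, rfl⟩ | ⟨S, hS, rfl⟩)
      · right
        rw [neg_neg]
        exact ⟨Y.sub S, hS, rfl⟩
      · left
        exact ⟨Z.quot S, hS, rfl⟩
  · -- pushing
    rintro V ⟨Z, hZ, rfl⟩ θ₁ hθ₁ hn₁
    obtain ⟨g₁, hg₁⟩ := hREAL hK hHR c f₀ θ₁ h₀
    obtain ⟨hC, hCT, -, hCY, -⟩ := hTRC c f₀ g₁ θ₁ h₀ hg₁
    have hCTb : TbN c f₀ θ₁ (CW f₀ g₁) := (hNUM c f₀ g₁ θ₁ _ h₀ hg₁ hC).1.1 hCT
    have hYH : HH g₁.f Y := (hNUM c f₀ g₁ θ₁ Y h₀ hg₁ hY).2.2 (hFb Z θ₁ hθ₁.1)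
    have hBp : Bp f₀ Y (CW f₀ g₁) := ⟨hC, fun φ => hCY Y hY hYH φ⟩
    refine ⟨VV c f₀ Y (Z.prod (CW f₀ g₁)), ⟨Z.prod (CW f₀ g₁), inW_prod hZ hC, rfl⟩, ?_, ?_, ?_, ?_⟩
    · rintro w (h | ⟨S, hS, rfl⟩)
      · exact Or.inl h
      · right
        exact ⟨S.prod ⊤, inW_iso (MAX_quotL Z _ S).symm hS, (v_iso c (MAX_quotL Z _ S)).symm⟩
    · intro η hη hle
      refine ⟨hVV _ η (hFb Z η hη.1) ?_, fun w hw => hw.elim⟩
      exact MAX_tbN_prod hTBN h₀ hZ hC (hTb Z η hη.1) (hle _ ⟨hCTb, hBp⟩).1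
    · intro η η' b s hb hη' hF X hX
      refine ⟨?_, hX.2⟩
      refine hPUSH c f₀ g₁ θ₁ η η' h₀ hg₁ ?_ (MAX_tbN_prodR (hTb _ η' hF.1)) X hX.2.1 hX.1
      intro M hM h1 h2
      rw [hη', sub_dotProduct, smul_dotProduct, smul_dotProduct, smul_eq_mul, smul_eq_mul]
      have hs : (0 : ℤ) ≤ s := by positivity
      have hb' : (0 : ℤ) ≤ b := by positivity
      have h3 := mul_nonneg hb' h1
      have h4 := mul_nonneg hs (neg_nonneg.2 h2)
      linarith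
    · intro hF η hη X hX
      refine ⟨?_, hX.2⟩
      refine hPUSH c f₀ g₁ θ₁ η (-θ₁) h₀ hg₁ ?_ (MAX_tbN_prodR (hTb _ _ hF.1)) X hX.2.1 hX.1
      intro M hM h1 h2
      rw [neg_dotProduct]
      linarith
  · -- maximal elements on faces of codimension at least two
    rintro V ⟨Z, hZ, rfl⟩ L hL η hη hn hmax hrk η' X hX
    exact ⟨hCM hK hA hHR c f₀ Y Z L h₀ hY hZ hL η hη hn hmax hrk X hX.2, hX.2⟩

end Pool.Agent.H51.MF
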