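import Pool.Agent.H51.MF.Base

/-! # Module NAK: a functional killed by the endomorphisms which are not bijective -/

set_option linter.style.haveILetI false
set_option linter.unusedSectionVars false
set_option autoImplicit false

namespace Pool.Agent.H51.MF

open Module Pool.Agent.H51.T2

universe u v

section aux

variable {K : Type v} [Field K] {A : Type u} [Ring A] [Algebra K A]

/-- composition with an endomorphism -/
def NAK_pre (P X : FM K A) (s : P →ₗ[A] P) : (P →ₗ[A] X) →ₗ[K] (P →ₗ[A] X) where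
  toFun z := z ∘ₗ s
  map_add' z z' := LinearMap.add_comp _ _ _
  map_smul' c z := by
    ext y
    rfl

/-- the translates of a functional -/
def NAK_N (g : TC K A) (X : FM K A) (ξ : (g.P →ₗ[A] X) →ₗ[K] K) :
    Submodule K ((g.P →ₗ[A] X) →ₗ[K] K) where
  carrier := {φ | ∃ (s : g.P →ₗ[A] g.P) (t : g.Q →ₗ[A] g.Q), g.f ∘ₗ s = t ∘ₗ g.f ∧
    φ = ξ ∘ₗ NAK_pre g.P X s}
  add_mem' := by
    rintro φ φ' ⟨s, t, h, rfl⟩ ⟨s', t', h', rfl⟩
    refine ⟨s + s', t + t', ?_, ?_⟩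
    · rw [LinearMap.comp_add, LinearMap.add_comp, h, h']
    · ext z
      show ξ (z ∘ₗ s) + ξ (z ∘ₗ s') = ξ (z ∘ₗ (s + s'))
      rw [LinearMap.comp_add, map_add]
  zero_mem' := by
    refine ⟨0, 0, by rw [LinearMap.comp_zero, LinearMap.zero_comp], ?_⟩
    ext z
    show (0 : K) = ξ (z ∘ₗ 0)
    rw [LinearMap.comp_zero, map_zero]
  smul_mem' := by
    rintro c φ ⟨s, t, h, rfl⟩
    refine ⟨c • s, c • t, ?_, ?_⟩
    · ext y
      have h1 := LinearMap.congr_fun h y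
      show g.f (c • s y) = c • t (g.f y)
      rw [LinearMap.map_smul_of_tower]
      exact congrArg _ h1
    · ext z
      show c • ξ (z ∘ₗ s) = ξ (z ∘ₗ (c • s))
      have h2 : z ∘ₗ (c • s) = c • (z ∘ₗ s) := by
        ext y
        exact LinearMap.map_smul_of_tower z c (s y)
      rw [h2, map_smul]

theorem NAK_inj (X : FM K A) (s : X →ₗ[A] X) (h : Function.Injective s) :
    Function.Bijective s :=
  ⟨h, (LinearMap.injective_iff_surjective (f := s.restrictScalars K)).1 h⟩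

end aux

theorem s_NAK (K : Type v) [Field K] (A : Type u) [Ring A] [Algebra K A] : S_NAK K A := by
  classical
  intro g X hloc hTT
  haveI : FiniteDimensional K (g.P →ₗ[A] X) := finite_hom
  -- the maps which factor through `g.f`
  let R : Submodule K (g.P →ₗ[A] X) :=
    { carrier := {z | ∃ l : g.Q →ₗ[A] X, z = l ∘ₗ g.f}
      add_mem' := by
        rintro z z' ⟨l, rfl⟩ ⟨l', rfl⟩
        exact ⟨l + l', (LinearMap.add_comp _ _ _).symm⟩
      zero_mem' := ⟨0, (LinearMap.zero_comp _).symm⟩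
      smul_mem' := by
        rintro c z ⟨l, rfl⟩
        exact ⟨c • l, rfl⟩ }
  have hR : R < ⊤ := by
    rw [lt_top_iff_ne_top]
    intro h
    apply hTT
    intro z
    have : z ∈ R := h ▸ Submodule.mem_top
    exact this
  obtain ⟨ξ₀, hξ₀, hξ₀R⟩ := Submodule.exists_le_ker_of_lt_top R hR
  let S : Set ((g.P →ₗ[A] X) →ₗ[K] K) := {ξ | ξ ≠ 0 ∧ ∀ l : g.Q →ₗ[A] X, ξ (l ∘ₗ g.f) = 0}
  have hS : S.Nonempty := ⟨ξ₀, hξ₀, fun l => hξ₀R ⟨l, rfl⟩⟩
  obtain ⟨ξ, hξ, hmin⟩ :=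
    (measure (fun ξ : (g.P →ₗ[A] X) →ₗ[K] K => finrank K (NAK_N g X ξ))).wf.has_min S hS
  refine ⟨ξ, hξ.1, hξ.2, ?_⟩
  intro s t hst hnb z
  by_contra hz
  -- the translate is nonzero and admissible
  let ξ' : (g.P →ₗ[A] X) →ₗ[K] K := ξ ∘ₗ NAK_pre g.P X s
  have hξ' : ξ' ∈ S := by
    refine ⟨fun h => hz ?_, fun l => ?_⟩
    · have := LinearMap.congr_fun h z
      exact this
    · show ξ ((l ∘ₗ g.f) ∘ₗ s) = 0
      rw [LinearMap.comp_assoc, hst, ← LinearMap.comp_assoc]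
      exact hξ.2 _
  have hle : NAK_N g X ξ' ≤ NAK_N g X ξ := by
    rintro φ ⟨s', t', h', rfl⟩
    refine ⟨s' ∘ₗ s, t' ∘ₗ t, ?_, ?_⟩
    · rw [← LinearMap.comp_assoc, h', LinearMap.comp_assoc, hst, ← LinearMap.comp_assoc]
    · ext w
      show ξ ((w ∘ₗ s') ∘ₗ s) = ξ (w ∘ₗ (s' ∘ₗ s))
      rw [LinearMap.comp_assoc]
  have hge : finrank K (NAK_N g X ξ) ≤ finrank K (NAK_N g X ξ') := by
    have h1 := hmin ξ' hξ'
    exact not_lt.1 h1
  have heq : NAK_N g X ξ' = NAK_N g X ξ := Submodule.eq_of_le_of_finrank_le hle hge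
  have hmem : ξ ∈ NAK_N g X ξ' := by
    rw [heq]
    refine ⟨LinearMap.id, LinearMap.id, rfl, ?_⟩
    ext w
    rfl
  obtain ⟨s', t', h', hfix⟩ := hmem
  -- the composite is nilpotent
  have hfix' : ∀ w : g.P →ₗ[A] X, ξ (w ∘ₗ (s' ∘ₗ s)) = ξ w := by
    intro w
    have h1 : ξ w = ξ ((w ∘ₗ s') ∘ₗ s) := LinearMap.congr_fun hfix w
    rw [LinearMap.comp_assoc] at h1
    exact h1.symm
  have hpow : ∀ (m : ℕ) (w : g.P →ₗ[A] X), ξ (w ∘ₗ ((s' ∘ₗ s) ^ m)) = ξ w := by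
    intro m
    induction m with
    | zero =>
      intro w
      rfl
    | succ k ih =>
      intro w
      have h2 : w ∘ₗ ((s' ∘ₗ s) ^ (k + 1)) = (w ∘ₗ ((s' ∘ₗ s) ^ k)) ∘ₗ (s' ∘ₗ s) := by
        rw [pow_succ]
        rfl
      rw [h2, hfix', ih]
  have hcomp : g.f ∘ₗ (s' ∘ₗ s) = (t' ∘ₗ t) ∘ₗ g.f := by
    rw [← LinearMap.comp_assoc, h', LinearMap.comp_assoc, hst, ← LinearMap.comp_assoc]
  rcases hloc (s' ∘ₗ s) (t' ∘ₗ t) hcomp with ⟨h3, h4⟩ | ⟨m, h3, -⟩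
  · apply hnb
    constructor
    · apply NAK_inj
      exact Function.Injective.of_comp (f := s') h3.1
    · apply NAK_inj
      exact Function.Injective.of_comp (f := t') h4.1
  · apply hξ.1
    ext w
    rw [← hpow m w, h3, LinearMap.comp_zero, map_zero]
    rfl

end Pool.Agent.H51.MF
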