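import Pool.Agent.H51.MF.Base

/-! # Module PO: the universal extension -/

set_option linter.style.haveILetI false
set_option linter.unusedSectionVars false
set_option autoImplicit false

namespace Pool.Agent.H51.MF

open Module Pool.Agent.H51.T2

universe u v

theorem s_PO (K : Type v) [Field K] (A : Type u) [Ring A] [Algebra K A] : S_PO K A := by
  classical
  intro g₂ X h₂
  haveI : FiniteDimensional K (g₂.P →ₗ[A] X) := finite_hom
  let k : ℕ := finrank K (g₂.P →ₗ[A] X)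
  let B := Module.finBasis K (g₂.P →ₗ[A] X)
  let x : Fin k → (g₂.P →ₗ[A] X) := fun i => B i
  let xs : (Fin k → g₂.P) →ₗ[A] X := ∑ i, x i ∘ₗ LinearMap.proj i
  let G : (Fin k → g₂.P) →ₗ[A] (Fin k → g₂.Q) := LinearMap.pi fun i => g₂.f ∘ₗ LinearMap.proj i
  let ρ : (Fin k → g₂.P) →ₗ[A] (X × (Fin k → g₂.Q)) := xs.prod (-G)
  let X' : FM K A := (X.prod (g₂.Q.pow k)).quot (LinearMap.range ρ)
  let mk : (X × (Fin k → g₂.Q)) →ₗ[A] X' := (LinearMap.range ρ).mkQ
  let ι : X →ₗ[A] X' := mk ∘ₗ LinearMap.inl A X (Fin k → g₂.Q)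
  let J : (Fin k → g₂.Q) →ₗ[A] X' := mk ∘ₗ LinearMap.inr A X (Fin k → g₂.Q)
  have hmk : Function.Surjective mk := Submodule.mkQ_surjective _
  have hxs : ∀ p : Fin k → g₂.P, xs p = ∑ i, x i (p i) := by
    intro p
    simp [xs]
  have hG : ∀ (p : Fin k → g₂.P) i, G p i = g₂.f (p i) := fun p i => rfl
  have hmkJ : ∀ (a : X) (b : Fin k → g₂.Q), mk (a, b) = ι a + J b := by
    intro a b
    show mk (a, b) = mk (a, 0) + mk (0, b)
    rw [← map_add]
    simp
  have hrel : ∀ p : Fin k → g₂.P, ι (xs p) = J (G p) := by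
    intro p
    have h1 : mk (ρ p) = 0 := (Submodule.Quotient.mk_eq_zero _).2 ⟨p, rfl⟩
    have h2 : ρ p = (xs p, -G p) := rfl
    rw [h2, hmkJ, map_neg] at h1
    exact add_neg_eq_zero.1 h1
  -- lifting maps from projective modules
  have hlift : ∀ (P : FM K A) [Module.Projective A P] (h : P →ₗ[A] X'),
      ∃ (a : P →ₗ[A] X) (b : P →ₗ[A] (Fin k → g₂.Q)), h = ι ∘ₗ a + J ∘ₗ b := by
    intro P _ h
    obtain ⟨h', hh'⟩ := Module.projective_lifting_property mk h hmk
    refine ⟨LinearMap.fst A _ _ ∘ₗ h', LinearMap.snd A _ _ ∘ₗ h', ?_⟩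
    rw [← hh']
    ext y
    exact hmkJ _ _
  -- maps through `X`
  have hA : ∀ a : g₂.P →ₗ[A] X, ∃ l : g₂.Q →ₗ[A] X', ι ∘ₗ a = l ∘ₗ g₂.f := by
    intro a
    let c : Fin k → K := fun i => B.repr a i
    refine ⟨J ∘ₗ LinearMap.pi fun i => c i • LinearMap.id, ?_⟩
    ext y
    have h1 : a y = xs (fun i => c i • y) := by
      rw [hxs]
      conv_lhs => rw [← B.sum_repr a]
      rw [LinearMap.sum_apply]
      refine Finset.sum_congr rfl fun i _ => ?_
      rw [LinearMap.smul_apply]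
      exact (LinearMap.map_smul_of_tower (x i) (c i) y).symm
    show ι (a y) = J (fun i => c i • g₂.f y)
    rw [h1, hrel]
    congr 1
    funext i
    rw [hG]
    exact LinearMap.map_smul_of_tower g₂.f (c i) y
  refine ⟨X', ι, ?_, ?_, ?_, ?_⟩
  · -- `TT`
    intro h
    obtain ⟨a, b, hab⟩ := hlift g₂.P h
    have hr : ∀ j, ∃ (s : g₂.P →ₗ[A] g₂.P) (t : g₂.Q →ₗ[A] g₂.Q),
        LinearMap.proj j ∘ₗ b = g₂.f ∘ₗ s - t ∘ₗ g₂.f := fun j => h₂ (LinearMap.proj j ∘ₗ b)
    choose s t hst using hr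
    obtain ⟨l, hl⟩ := hA (a + xs ∘ₗ LinearMap.pi s)
    refine ⟨l - J ∘ₗ LinearMap.pi t, ?_⟩
    have hb : b = G ∘ₗ LinearMap.pi s - LinearMap.pi t ∘ₗ g₂.f := by
      ext y j
      exact LinearMap.congr_fun (hst j) y
    have h3 : J ∘ₗ (G ∘ₗ LinearMap.pi s) = ι ∘ₗ (xs ∘ₗ LinearMap.pi s) := by
      ext y
      exact (hrel _).symm
    rw [hab, hb, LinearMap.comp_sub, h3, LinearMap.sub_comp, ← hl, LinearMap.comp_add,
      LinearMap.comp_assoc]
    abel
  · -- factorisation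
    intro g₁ h₁ z
    obtain ⟨l, hl⟩ := h₁ (ι ∘ₗ z)
    obtain ⟨m, n, hmn⟩ := hlift g₁.Q l
    -- the difference lies in the range of `ρ`
    let d : g₁.P →ₗ[A] (X × (Fin k → g₂.Q)) := (z - m ∘ₗ g₁.f).prod (-(n ∘ₗ g₁.f))
    have hd : ∀ y, d y ∈ LinearMap.range ρ := by
      intro y
      rw [← Submodule.Quotient.mk_eq_zero]
      show mk (d y) = 0
      have h4 : d y = (z y - m (g₁.f y), -n (g₁.f y)) := rfl
      rw [h4, hmkJ, map_neg, map_sub]
      have h5 : ι (z y) = ι (m (g₁.f y)) + J (n (g₁.f y)) := by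
        have h6 := LinearMap.congr_fun hl y
        rw [hmn] at h6
        exact h6
      rw [h5]
      abel
    obtain ⟨w, hw⟩ := Module.projective_lifting_property ρ.rangeRestrict
      (d.codRestrict (LinearMap.range ρ) hd) ρ.surjective_rangeRestrict
    have hw' : ∀ y, ρ (w y) = d y := fun y => congrArg Subtype.val (LinearMap.congr_fun hw y)
    refine ⟨m, k, x, fun i => LinearMap.proj i ∘ₗ w, fun i => LinearMap.proj i ∘ₗ n, ?_, ?_⟩
    · intro i
      ext y
      have h7 : -G (w y) = -n (g₁.f y) := congrArg Prod.snd (hw' y)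
      exact congrFun (neg_injective h7) i
    · ext y
      have h8 : xs (w y) = z y - m (g₁.f y) := congrArg Prod.fst (hw' y)
      rw [hxs] at h8
      rw [LinearMap.add_apply, LinearMap.sum_apply]
      show z y = m (g₁.f y) + ∑ i, x i (w y i)
      rw [h8]
      abel
  · -- maps to modules in `HH`
    intro M hM φ hφ
    have h9 : ∀ i, φ ∘ₗ J ∘ₗ LinearMap.single A (fun _ : Fin k => (g₂.Q : Type u)) i = 0 := by
      intro i
      apply hM
      ext y
      have h10 : J (Pi.single i (g₂.f y)) = ι (xs (Pi.single i y)) := by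
        rw [hrel]
        congr 1
        funext j
        rw [hG]
        by_cases hj : j = i
        · subst hj
          rw [Pi.single_eq_same, Pi.single_eq_same]
        · rw [Pi.single_eq_of_ne hj, Pi.single_eq_of_ne hj, map_zero]
      show φ (J (Pi.single i (g₂.f y))) = 0
      rw [h10]
      exact LinearMap.congr_fun hφ _
    have h11 : φ ∘ₗ J = 0 := by
      apply LinearMap.pi_ext'
      intro i
      rw [LinearMap.zero_comp]
      exact h9 i
    refine LinearMap.ext fun y => ?_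
    obtain ⟨⟨a, b⟩, rfl⟩ := hmk y
    rw [hmkJ, map_add]
    have h12 : φ (ι a) = 0 := LinearMap.congr_fun hφ a
    have h13 : φ (J b) = 0 := LinearMap.congr_fun h11 b
    rw [h12, h13, add_zero]
    rfl
  · -- extensions
    intro f₀ hX hC h
    obtain ⟨a, b, hab⟩ := hlift f₀.P h
    have hr : ∀ j, ∃ (dj : f₀.Q →ₗ[A] g₂.Q) (wj : f₀.P →ₗ[A] g₂.P),
        LinearMap.proj j ∘ₗ b = dj ∘ₗ f₀.f + g₂.f ∘ₗ wj := by
      intro j
      obtain ⟨c, hc⟩ := hC ((LinearMap.range g₂.f).mkQ ∘ₗ (LinearMap.proj j ∘ₗ b))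
      obtain ⟨dj, hdj⟩ := Module.projective_lifting_property (LinearMap.range g₂.f).mkQ c
        (Submodule.mkQ_surjective _)
      have hin : ∀ y, (LinearMap.proj j ∘ₗ b - dj ∘ₗ f₀.f) y ∈ LinearMap.range g₂.f := by
        intro y
        rw [← Submodule.Quotient.mk_eq_zero]
        show (LinearMap.range g₂.f).mkQ (b y j - dj (f₀.f y)) = 0
        rw [map_sub]
        have h14 := LinearMap.congr_fun hc y
        rw [← hdj] at h14
        exact sub_eq_zero.2 h14
      obtain ⟨wj, hwj⟩ := Module.projective_lifting_property g₂.f.rangeRestrict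
        (LinearMap.codRestrict (LinearMap.range g₂.f) _ hin) g₂.f.surjective_rangeRestrict
      refine ⟨dj, wj, ?_⟩
      ext y
      have h15 : g₂.f (wj y) = b y j - dj (f₀.f y) :=
        congrArg Subtype.val (LinearMap.congr_fun hwj y)
      show b y j = dj (f₀.f y) + g₂.f (wj y)
      rw [h15]
      abel
    choose d w hdw using hr
    obtain ⟨l, hl⟩ := hX (a + xs ∘ₗ LinearMap.pi w)
    refine ⟨ι ∘ₗ l + J ∘ₗ LinearMap.pi d, ?_⟩
    have hb : b = LinearMap.pi d ∘ₗ f₀.f + G ∘ₗ LinearMap.pi w := by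
      ext y j
      exact LinearMap.congr_fun (hdw j) y
    have h3 : J ∘ₗ (G ∘ₗ LinearMap.pi w) = ι ∘ₗ (xs ∘ₗ LinearMap.pi w) := by
      ext y
      exact (hrel _).symm
    have h16 : (ι ∘ₗ l) ∘ₗ f₀.f = ι ∘ₗ a + ι ∘ₗ (xs ∘ₗ LinearMap.pi w) := by
      rw [LinearMap.comp_assoc, ← hl, LinearMap.comp_add]
    have h17 : (J ∘ₗ LinearMap.pi d) ∘ₗ f₀.f = J ∘ₗ (LinearMap.pi d ∘ₗ f₀.f) :=
      LinearMap.comp_assoc _ _ _
    rw [hab, hb, LinearMap.comp_add, h3, LinearMap.add_comp, h16, h17]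
    abel

end Pool.Agent.H51.MF
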