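import Pool.Agent.H51.MF.Base

/-! # Module SPL: splitting off a summand -/

set_option linter.style.haveILetI false
set_option linter.unusedSectionVars false
set_option autoImplicit false

namespace Pool.Agent.H51.MF

open Module Pool.Agent.H51.T2

universe u v

section aux

variable {K : Type v} [Field K] {A : Type u} [Ring A] [Algebra K A]

/-- the decomposition given by a split injection -/
noncomputable def SPL_equiv (X Y : FM K A) (a : X →ₗ[A] Y) (b : Y →ₗ[A] X)
    (h : Function.Bijective (b ∘ₗ a)) : (X × LinearMap.ker b) ≃ₗ[A] Y :=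
  LinearEquiv.ofBijective (a.coprod (LinearMap.ker b).subtype) (by
    constructor
    · rw [← LinearMap.ker_eq_bot, eq_bot_iff]
      rintro ⟨x, y⟩ hxy
      have h1 : a x + (y : Y) = 0 := hxy
      have h2 : b (y : Y) = 0 := y.2
      have h3 : b (a x) = 0 := by
        have h4 := congrArg b h1
        rw [map_add, map_zero, h2, add_zero] at h4
        exact h4
      have h5 : x = 0 := h.1 (by
        show b (a x) = b (a 0)
        rw [h3, map_zero, map_zero])
      subst h5
      rw [map_zero, zero_add] at h1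
      have h6 : y = 0 := Subtype.ext h1
      rw [h6]
      rfl
    · intro y
      obtain ⟨x, hx⟩ := h.2 (b y)
      have hx' : b (a x) = b y := hx
      refine ⟨(x, ⟨y - a x, ?_⟩), ?_⟩
      · rw [LinearMap.mem_ker, map_sub, hx', sub_self]
      · show a x + (y - a x) = y
        abel)

theorem SPL_apply (X Y : FM K A) (a : X →ₗ[A] Y) (b : Y →ₗ[A] X)
    (h : Function.Bijective (b ∘ₗ a)) (x : X) (y : LinearMap.ker b) :
    SPL_equiv X Y a b h (x, y) = a x + y := rfl

theorem SPL_proj (X Y : FM K A) [Module.Projective A Y] (a : X →ₗ[A] Y) (b : Y →ₗ[A] X)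
    (h : Function.Bijective (b ∘ₗ a)) : Module.Projective A (LinearMap.ker b) :=
  Module.Projective.of_split (LinearMap.ker b).subtype
    (LinearMap.snd A X (LinearMap.ker b) ∘ₗ (SPL_equiv X Y a b h).symm.toLinearMap) (by
      ext y
      have h1 : (SPL_equiv X Y a b h).symm (y : Y) = (0, y) := by
        rw [LinearEquiv.symm_apply_eq, SPL_apply, map_zero, zero_add]
      show (((SPL_equiv X Y a b h).symm (y : Y)).2 : Y) = y
      rw [h1])

theorem SPL_rank (X Y : FM K A) (a : X →ₗ[A] Y) (b : Y →ₗ[A] X)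
    (h : Function.Bijective (b ∘ₗ a)) :
    finrank K X + finrank K (LinearMap.ker b) = finrank K Y := by
  haveI : FiniteDimensional K (LinearMap.ker b) :=
    Module.Finite.of_injective ((LinearMap.ker b).subtype.restrictScalars K)
      (Submodule.injective_subtype _)
  rw [← Module.finrank_prod]
  exact ((SPL_equiv X Y a b h).restrictScalars K).finrank_eq

end aux

theorem s_SPL (K : Type v) [Field K] (A : Type u) [Ring A] [Algebra K A] : S_SPL K A := by
  intro g₁ g₂ u m w m' h1 h2 hP hQ
  have hf : ∀ x ∈ LinearMap.ker w, g₂.f x ∈ LinearMap.ker m' := by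
    intro x hx
    have h3 : g₁.f (w x) = m' (g₂.f x) := LinearMap.congr_fun h2 x
    rw [LinearMap.mem_ker, ← h3, LinearMap.mem_ker.1 hx, map_zero]
  let g₃ : TC K A :=
    { P := g₂.P.sub (LinearMap.ker w)
      Q := g₂.Q.sub (LinearMap.ker m')
      hP := SPL_proj g₁.P g₂.P u w hP
      hQ := SPL_proj g₁.Q g₂.Q m m' hQ
      f := g₂.f.restrict hf }
  refine ⟨g₃, ⟨(SPL_equiv g₁.P g₂.P u w hP).symm, (SPL_equiv g₁.Q g₂.Q m m' hQ).symm, ?_⟩, ?_⟩
  · refine LinearMap.ext fun x => ?_
    obtain ⟨⟨a, b⟩, rfl⟩ := (SPL_equiv g₁.P g₂.P u w hP).surjective x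
    show (g₁.f.prodMap g₃.f) ((SPL_equiv g₁.P g₂.P u w hP).symm
      (SPL_equiv g₁.P g₂.P u w hP (a, b))) = (SPL_equiv g₁.Q g₂.Q m m' hQ).symm
        (g₂.f (SPL_equiv g₁.P g₂.P u w hP (a, b)))
    rw [LinearEquiv.symm_apply_apply, LinearEquiv.eq_symm_apply]
    have h3 : g₂.f (u a) = m (g₁.f a) := LinearMap.congr_fun h1 a
    have h4 : SPL_equiv g₁.P g₂.P u w hP (a, b) = u a + (b : g₂.P) := rfl
    rw [h4, map_add, h3]
    rfl
  · have h3 := SPL_rank g₁.P g₂.P u w hP
    have h4 := SPL_rank g₁.Q g₂.Q m m' hQ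
    show (finrank K g₁.P + finrank K g₁.Q) +
      (finrank K (LinearMap.ker w) + finrank K (LinearMap.ker m')) =
      finrank K g₂.P + finrank K g₂.Q
    omega

end Pool.Agent.H51.MF
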